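import Pool.Agent.H619.CutInv.Comb

set_option autoImplicit false

open MeasureTheory

namespace Pool.Agent.H619.CutInv

/-- the uniform probability measure on `Fin (n + 1)` -/
noncomputable def unif (n : ℕ) : Measure (Fin (n + 1)) :=
  (PMF.uniformOfFintype (Fin (n + 1))).toMeasure

instance (n : ℕ) : IsProbabilityMeasure (unif n) := by
  unfold unif; infer_instance

lemma unif_single (n : ℕ) (i : Fin (n + 1)) : unif n {i} = ((n + 1 : ℕ) : ENNReal)⁻¹ := by
  unfold unif
  rw [PMF.toMeasure_apply_singleton _ _ (measurableSet_singleton i)]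
  simp

/-- The density for uniform measures on finite sets is a finite sum. -/
lemma dens_unif (a b : ℕ) (f : Fin (a + 1) × Fin (b + 1) → ℝ) :
    dens E (unif a) (unif b) f =
      ((((a + 1 : ℕ) : ENNReal)⁻¹ ^ 14 * ((b + 1 : ℕ) : ENNReal)⁻¹ ^ 7).toReal) *
        ∑ y : Fin 7 → Fin (b + 1), ∑ x : Fin 7 × Fin 2 → Fin (a + 1),
          ∏ e ∈ E, f (x e.1, y e.2) := by
  unfold dens
  rw [integral_fintype (hf := Integrable.of_finite)]
  rw [Fintype.sum_prod_type_right, Finset.mul_sum]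
  refine Finset.sum_congr rfl fun y _ => ?_
  rw [Finset.mul_sum]
  refine Finset.sum_congr rfl fun x _ => ?_
  rw [smul_eq_mul]
  congr 1
  rw [measureReal_def]
  congr 1
  have : ({(x, y)} : Set ((Fin 7 × Fin 2 → Fin (a + 1)) × (Fin 7 → Fin (b + 1)))) =
      {x} ×ˢ {y} := by
    ext z; simp [Prod.ext_iff]
  rw [this, Measure.prod_prod, Measure.pi_singleton, Measure.pi_singleton]
  simp only [unif_single, Finset.prod_const]
  rfl

/-- the sum over the left vertices factorises -/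
lemma sum_prod_E (a b : ℕ) (f : Fin (a + 1) × Fin (b + 1) → ℝ) (y : Fin 7 → Fin (b + 1)) :
    ∑ x : Fin 7 × Fin 2 → Fin (a + 1), ∏ e ∈ E, f (x e.1, y e.2) =
      ∏ p : Fin 7, (∑ A : Fin (a + 1), f (A, y p) * f (A, y (p - 1)) * f (A, y (p - 3))) ^ 2 := by
  have h1 : ∀ x : Fin 7 × Fin 2 → Fin (a + 1), ∏ e ∈ E, f (x e.1, y e.2) =
      ∏ v : Fin 7 × Fin 2, (f (x v, y v.1) * f (x v, y (v.1 - 1)) * f (x v, y (v.1 - 3))) := by
    intro x
    unfold E
    rw [Finset.prod_filter, Fintype.prod_prod_type]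
    refine Finset.prod_congr rfl fun v _ => ?_
    obtain ⟨p, i⟩ := v
    have e1 : (-1 : Fin 7) = 6 := rfl
    have e2 : (-3 : Fin 7) = 4 := rfl
    fin_cases p <;> simp [Fin.prod_univ_seven, inc, e1, e2] <;> (try ring_nf) <;> (try simp)
  simp_rw [h1]
  have h2 := Finset.prod_univ_sum (t := fun _ : Fin 7 × Fin 2 => (Finset.univ : Finset (Fin (a + 1))))
    (f := fun v A => f (A, y v.1) * f (A, y (v.1 - 1)) * f (A, y (v.1 - 3)))
  rw [Fintype.piFinset_univ] at h2
  rw [← h2, Fintype.prod_prod_type]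
  refine Finset.prod_congr rfl fun p _ => ?_
  rw [Fin.prod_univ_two, sq]

end Pool.Agent.H619.CutInv
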