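import Pool.Agent.H619.CutInv.Defs

set_option autoImplicit false

namespace Pool.Agent.H619.CutInv

/-- point `p` lies on line `l` of the Fano plane -/
def inc (p l : Fin 7) : Bool := p == l || p == l + 1 || p == l + 3

/-- the incidence graph of the Fano plane with every point doubled -/
def E : Finset ((Fin 7 × Fin 2) × Fin 7) :=
  Finset.univ.filter fun e => inc e.1.1 e.2 = true

lemma mem_E (v : Fin 7 × Fin 2) (l : Fin 7) : (v, l) ∈ E ↔ inc v.1 l = true := by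
  simp [E]

/-- an isolated vertex and another vertex -/
lemma not_preconnected {V : Type} (G : SimpleGraph V) (S : Set V) (x y : V) (hx : x ∈ S)
    (hy : y ∈ S) (hxy : x ≠ y) (h : ∀ z ∈ S, ¬ G.Adj x z) : ¬ (G.induce S).Preconnected := by
  intro hc
  obtain ⟨w⟩ := hc ⟨x, hx⟩ ⟨y, hy⟩
  cases w with
  | nil => exact hxy rfl
  | @cons _ v _ h1 _ => exact h v.1 v.2 h1

/-- data of an involution of the Fano plane with centre -/
structure Dat where
  p : Fin 7 → Fin 7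
  l : Fin 7 → Fin 7
  c : Fin 7

def Dat.f (d : Dat) (v : Fin 7 × Fin 2) : Fin 7 × Fin 2 :=
  (d.p v.1, if v.1 = d.c then v.2 + 1 else v.2)

def g0 : Dat := ⟨![0, 2, 1, 6, 4, 5, 3], ![6, 1, 5, 3, 4, 2, 0], 4⟩
def g1 : Dat := ⟨![0, 3, 2, 1, 5, 4, 6], ![0, 2, 1, 5, 4, 3, 6], 0⟩
def g2 : Dat := ⟨![1, 0, 2, 3, 6, 5, 4], ![0, 6, 2, 3, 5, 4, 1], 3⟩
def g3 : Dat := ⟨![5, 1, 2, 6, 4, 0, 3], ![5, 1, 6, 3, 4, 0, 2], 4⟩

def P0 : Equiv.Perm (Fin 7 × Fin 2) × Equiv.Perm (Fin 7) :=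
  (Function.Involutive.toPerm g0.f (by unfold Function.Involutive; decide),
    Function.Involutive.toPerm g0.l (by unfold Function.Involutive; decide))
def P1 : Equiv.Perm (Fin 7 × Fin 2) × Equiv.Perm (Fin 7) :=
  (Function.Involutive.toPerm g1.f (by unfold Function.Involutive; decide),
    Function.Involutive.toPerm g1.l (by unfold Function.Involutive; decide))
def P2 : Equiv.Perm (Fin 7 × Fin 2) × Equiv.Perm (Fin 7) :=
  (Function.Involutive.toPerm g2.f (by unfold Function.Involutive; decide),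
    Function.Involutive.toPerm g2.l (by unfold Function.Involutive; decide))
def P3 : Equiv.Perm (Fin 7 × Fin 2) × Equiv.Perm (Fin 7) :=
  (Function.Involutive.toPerm g3.f (by unfold Function.Involutive; decide),
    Function.Involutive.toPerm g3.l (by unfold Function.Involutive; decide))

lemma cut_of (P : Equiv.Perm (Fin 7 × Fin 2) × Equiv.Perm (Fin 7)) (c : Fin 7)
    (h1 : ∀ v l, inc (P.1 v).1 (P.2 l) = inc v.1 l)
    (h2 : ∀ v, P.1 (P.1 v) = v) (h3 : ∀ l, P.2 (P.2 l) = l)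
    (h4 : P.1 (c, 0) ≠ (c, 0)) (h5 : P.1 (c, 1) ≠ (c, 1))
    (h6 : ∀ l, inc c l = true → P.2 l = l) : IsCutInvolution E P := by
  refine ⟨fun v l => ?_, ?_, ?_⟩
  · rw [mem_E, mem_E, h1]
  · refine (inv_eq_of_mul_eq_one_left ?_).symm
    refine Prod.ext ?_ ?_
    · ext1 v; exact h2 v
    · ext1 v; exact h3 v
  · refine not_preconnected (graph E) (moved P) (Sum.inl (c, 0)) (Sum.inl (c, 1)) ?_ ?_ ?_ ?_
    · intro h
      exact h4 (Sum.inl.inj h)
    · intro h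
      exact h5 (Sum.inl.inj h)
    · intro h
      have := Sum.inl.inj h
      simp at this
    · rintro z hz hadj
      rw [graph, SimpleGraph.fromRel_adj] at hadj
      obtain ⟨-, ⟨e, he, h7, h8⟩ | ⟨e, he, h7, h8⟩⟩ := hadj
      · subst h8
        apply hz
        have h9 : e.1 = (c, 0) := (Sum.inl.inj h7).symm
        have h10 : inc c e.2 = true := by
          have := (mem_E e.1 e.2).1 he
          rwa [h9] at this
        change Sum.inr (P.2 e.2) = Sum.inr e.2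
        rw [h6 _ h10]
      · exact absurd h8 (by simp)

lemma cut0 : IsCutInvolution E P0 :=
  cut_of P0 4 (by decide) (by decide) (by decide) (by decide) (by decide) (by decide)
lemma cut1 : IsCutInvolution E P1 :=
  cut_of P1 0 (by decide) (by decide) (by decide) (by decide) (by decide) (by decide)
lemma cut2 : IsCutInvolution E P2 :=
  cut_of P2 3 (by decide) (by decide) (by decide) (by decide) (by decide) (by decide)
lemma cut3 : IsCutInvolution E P3 :=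
  cut_of P3 4 (by decide) (by decide) (by decide) (by decide) (by decide) (by decide)

/-- number of steps to the base edge -/
def rk (q : Fin 7) (i : Fin 2) (l : Fin 7) : ℕ :=
  (![![![0, 99, 99, 99, 3, 99, 1], ![1, 99, 99, 99, 4, 99, 2]],
    ![![1, 2, 99, 99, 99, 2, 99], ![2, 3, 99, 99, 99, 3, 99]],
    ![![99, 3, 3, 99, 99, 99, 2], ![99, 4, 4, 99, 99, 99, 3]],
    ![![2, 99, 3, 3, 99, 99, 99], ![3, 99, 4, 4, 99, 99, 99]],
    ![![99, 3, 99, 2, 3, 99, 99], ![99, 4, 99, 3, 4, 99, 99]],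
    ![![99, 99, 2, 99, 2, 1, 99], ![99, 99, 3, 99, 3, 2, 99]],
    ![![99, 99, 99, 3, 99, 3, 3], ![99, 99, 99, 4, 99, 4, 4]]] :
      Fin 7 → Fin 2 → Fin 7 → ℕ) q i l

lemma rk_zero : ∀ (q : Fin 7) (i : Fin 2) (l : Fin 7), rk q i l = 0 →
    q = 0 ∧ i = 0 ∧ l = 0 := by decide

lemma rk_step : ∀ (q : Fin 7) (i : Fin 2) (l : Fin 7), inc q l = true → rk q i l ≠ 0 →
    (rk (P0.1 (q, i)).1 (P0.1 (q, i)).2 (P0.2 l) < rk q i l) ∨
    (rk (P1.1 (q, i)).1 (P1.1 (q, i)).2 (P1.2 l) < rk q i l) ∨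
    (rk (P2.1 (q, i)).1 (P2.1 (q, i)).2 (P2.2 l) < rk q i l) ∨
    (rk (P3.1 (q, i)).1 (P3.1 (q, i)).2 (P3.2 l) < rk q i l) := by decide

lemma to_base : ∀ (n : ℕ) (v : Fin 7 × Fin 2) (l : Fin 7), (v, l) ∈ E → rk v.1 v.2 l ≤ n →
    ∃ φ ∈ cutGroup E, φ.1 v = (0, 0) ∧ φ.2 l = 0 := by
  intro n
  induction n with
  | zero =>
    intro v l _ h
    obtain ⟨h1, h2, h3⟩ := rk_zero v.1 v.2 l (by omega)
    exact ⟨1, one_mem _, by rw [← h1, ← h2]; rfl, by rw [h3]; rfl⟩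
  | succ n ih =>
    intro v l hv h
    by_cases h0 : rk v.1 v.2 l = 0
    · exact ih v l hv (by omega)
    have key : ∀ P : Equiv.Perm (Fin 7 × Fin 2) × Equiv.Perm (Fin 7), IsCutInvolution E P →
        rk (P.1 (v.1, v.2)).1 (P.1 (v.1, v.2)).2 (P.2 l) < rk v.1 v.2 l →
        ∃ φ ∈ cutGroup E, φ.1 v = (0, 0) ∧ φ.2 l = 0 := by
      intro P hP hlt
      obtain ⟨φ, h1, h2, h3⟩ := ih (P.1 v) (P.2 l) ((hP.1 v l).2 hv) (by
        have : rk (P.1 v).1 (P.1 v).2 (P.2 l) < rk v.1 v.2 l := hlt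
        omega)
      exact ⟨φ * P, mul_mem h1 (Subgroup.subset_closure hP), h2, h3⟩
    rcases rk_step v.1 v.2 l ((mem_E v l).1 hv) h0 with h1 | h1 | h1 | h1
    · exact key P0 cut0 h1
    · exact key P1 cut1 h1
    · exact key P2 cut2 h1
    · exact key P3 cut3 h1

theorem edge_transitive : EdgeTransitiveUnder E (cutGroup E) := by
  rintro ⟨v, l⟩ he ⟨v', l'⟩ he'
  obtain ⟨φ, h1, h2, h3⟩ := to_base _ v l he le_rfl
  obtain ⟨ψ, h4, h5, h6⟩ := to_base _ v' l' he' le_rfl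
  refine ⟨ψ⁻¹ * φ, mul_mem (inv_mem h4) h1, ?_, ?_⟩
  · change ψ.1⁻¹ (φ.1 v) = v'
    rw [h2, ← h5]
    exact Equiv.symm_apply_apply ψ.1 v'
  · change ψ.2⁻¹ (φ.2 l) = l'
    rw [h3, ← h6]
    exact Equiv.symm_apply_apply ψ.2 l'

lemma adj_of {v : Fin 7 × Fin 2} {l : Fin 7} (h : inc v.1 l = true) :
    (graph E).Adj (Sum.inl v) (Sum.inr l) := by
  rw [graph, SimpleGraph.fromRel_adj]
  exact ⟨by simp, Or.inl ⟨(v, l), (mem_E v l).2 h, rfl, rfl⟩⟩

lemma common_line : ∀ p q : Fin 7, ∃ l, inc p l = true ∧ inc q l = true := by decide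

lemma some_point : ∀ l : Fin 7, ∃ p, inc p l = true := by decide

theorem connected : (graph E).Connected := by
  have h1 : ∀ v v' : Fin 7 × Fin 2, (graph E).Reachable (Sum.inl v) (Sum.inl v') := by
    intro v v'
    obtain ⟨l, h, h'⟩ := common_line v.1 v'.1
    exact (adj_of h).reachable.trans (adj_of h').reachable.symm
  have h2 : ∀ l : Fin 7, (graph E).Reachable (Sum.inl (0, 0)) (Sum.inr l) := by
    intro l
    obtain ⟨p, hp⟩ := some_point l
    exact (h1 (0, 0) (p, 0)).trans (adj_of (v := (p, 0)) hp).reachable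
  have h3 : ∀ x : (Fin 7 × Fin 2) ⊕ Fin 7, (graph E).Reachable (Sum.inl (0, 0)) x := by
    rintro (v | l)
    · exact h1 _ _
    · exact h2 l
  have : Nonempty ((Fin 7 × Fin 2) ⊕ Fin 7) := ⟨Sum.inl (0, 0)⟩
  exact ⟨fun x y => (h3 x).symm.trans (h3 y)⟩

end Pool.Agent.H619.CutInv
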