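import Mathlib

/-!
# Bigraphs, homomorphism densities and cut-involutions

A bigraph is given by its finite vertex classes `V`, `W` and its finite set of edges
`E ⊆ V × W`.
-/

set_option autoImplicit false

open MeasureTheory

namespace Pool.Agent.H619.CutInv

/-- The homomorphism density `t(G, f)` for `f` on the product of the probability spaces
`(X, μ)` and `(Y, ν)`. -/
noncomputable def dens {V W : Type} [Fintype V] [Fintype W] (E : Finset (V × W)) {X Y : Type}
    [MeasurableSpace X] [MeasurableSpace Y] (μ : Measure X) (ν : Measure Y) (f : X × Y → ℝ) : ℝ :=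
  ∫ p : (V → X) × (W → Y), ∏ e ∈ E, f (p.1 e.1, p.2 e.2)
    ∂((Measure.pi fun _ : V => μ).prod (Measure.pi fun _ : W => ν))

/-- `t(G, |f|) ^ (1 / e(G))`. -/
noncomputable def gnorm {V W : Type} [Fintype V] [Fintype W] (E : Finset (V × W)) {X Y : Type}
    [MeasurableSpace X] [MeasurableSpace Y] (μ : Measure X) (ν : Measure Y) (f : X × Y → ℝ) : ℝ :=
  dens E μ ν (fun z => |f z|) ^ (1 / (E.card : ℝ))

/-- `f` is bounded and measurable. -/
def BddMeas {X Y : Type} [MeasurableSpace X] [MeasurableSpace Y] (f : X × Y → ℝ) : Prop :=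
  Measurable f ∧ ∃ C : ℝ, ∀ z, |f z| ≤ C

/-- `f ↦ t(G, |f|) ^ (1 / e(G))` is a norm on the bounded measurable functions on `X × Y` modulo
almost everywhere equality. -/
def IsNormOn {V W : Type} [Fintype V] [Fintype W] (E : Finset (V × W)) {X Y : Type}
    [MeasurableSpace X] [MeasurableSpace Y] (μ : Measure X) (ν : Measure Y) : Prop :=
  (∀ f g : X × Y → ℝ, BddMeas f → BddMeas g →
    gnorm E μ ν (f + g) ≤ gnorm E μ ν f + gnorm E μ ν g) ∧
  (∀ (c : ℝ) (f : X × Y → ℝ), BddMeas f → gnorm E μ ν (c • f) = |c| * gnorm E μ ν f) ∧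
  (∀ f : X × Y → ℝ, BddMeas f → (gnorm E μ ν f = 0 ↔ f =ᵐ[μ.prod ν] 0))

/-- `G` is weakly norming: `f ↦ t(G, |f|) ^ (1 / e(G))` is a norm for all probability spaces. -/
def WeaklyNorming {V W : Type} [Fintype V] [Fintype W] (E : Finset (V × W)) : Prop :=
  ∀ (X Y : Type) [MeasurableSpace X] [MeasurableSpace Y] (μ : Measure X) (ν : Measure Y)
    [IsProbabilityMeasure μ] [IsProbabilityMeasure ν], IsNormOn E μ ν

/-- The bipartite graph on the disjoint union of the two vertex classes. -/
def graph {V W : Type} (E : Finset (V × W)) : SimpleGraph (V ⊕ W) :=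
  SimpleGraph.fromRel fun a b => ∃ e ∈ E, a = Sum.inl e.1 ∧ b = Sum.inr e.2

/-- `φ = (φ₁, φ₂)` is an automorphism (mapping each vertex class to itself). -/
def IsAut {V W : Type} (E : Finset (V × W)) (φ : Equiv.Perm V × Equiv.Perm W) : Prop :=
  ∀ v w, (φ.1 v, φ.2 w) ∈ E ↔ (v, w) ∈ E

/-- The vertices which are not fixed by `φ`. -/
def moved {V W : Type} (φ : Equiv.Perm V × Equiv.Perm W) : Set (V ⊕ W) :=
  {x | Sum.map φ.1 φ.2 x ≠ x}

/-- `φ` is a cut-involution: an automorphism with `φ = φ⁻¹` such that the graph obtained by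
deleting the fixed points of `φ` is disconnected. -/
def IsCutInvolution {V W : Type} (E : Finset (V × W)) (φ : Equiv.Perm V × Equiv.Perm W) : Prop :=
  IsAut E φ ∧ φ = φ⁻¹ ∧ ¬ ((graph E).induce (moved φ)).Preconnected

/-- The cut-involution group. -/
def cutGroup {V W : Type} (E : Finset (V × W)) : Subgroup (Equiv.Perm V × Equiv.Perm W) :=
  Subgroup.closure {φ | IsCutInvolution E φ}

/-- The group `H` of pairs of permutations acts transitively on the edges. -/
def EdgeTransitiveUnder {V W : Type} (E : Finset (V × W))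
    (H : Subgroup (Equiv.Perm V × Equiv.Perm W)) : Prop :=
  ∀ e ∈ E, ∀ e' ∈ E, ∃ φ ∈ H, φ.1 e.1 = e'.1 ∧ φ.2 e.2 = e'.2

end Pool.Agent.H619.CutInv
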