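import Pool.Agent.H619.CutInv.Num

set_option autoImplicit false

open MeasureTheory

namespace Pool.Agent.H619.CutInv

/-- the third moments of the columns -/
def ten (M : Fin 7 → Fin 6 → ℕ) (i j k : Fin 6) : ℕ := ∑ A : Fin 7, M A i * M A j * M A k

def Stot (M : Fin 7 → Fin 6 → ℕ) : ℕ :=
  ∑ y : Fin 7 → Fin 6, ∏ p : Fin 7, (ten M (y p) (y (p - 1)) (y (p - 3))) ^ 2

lemma tab0_eq : ∀ i j k : Fin 6, look tab0 i j k = ten M0 i j k ^ 2 := by decide +kernel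
lemma tab1_eq : ∀ i j k : Fin 6, look tab1 i j k = ten M1 i j k ^ 2 := by decide +kernel
lemma tab2_eq : ∀ i j k : Fin 6, look tab1 i j k = ten M2 i j k ^ 2 := by decide +kernel

lemma sum6_eq (h : ℕ → ℕ) : sum6 h = ∑ i : Fin 6, h i := by
  rw [Fin.sum_univ_six]; rfl

lemma sum_cons (n : ℕ) (G : (Fin (n + 1) → Fin 6) → ℕ) :
    ∑ y, G y = ∑ a : Fin 6, ∑ y : Fin n → Fin 6, G (Fin.cons a y) := by
  rw [← (Fin.consEquiv fun _ => Fin 6).sum_comp, Fintype.sum_prod_type]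
  rfl

lemma sum_pi7 (K : ℕ → ℕ → ℕ → ℕ → ℕ → ℕ → ℕ → ℕ) :
    ∑ y : Fin 7 → Fin 6, K (y 0) (y 1) (y 2) (y 3) (y 4) (y 5) (y 6) =
      ∑ a0 : Fin 6, ∑ a1 : Fin 6, ∑ a2 : Fin 6, ∑ a3 : Fin 6, ∑ a4 : Fin 6, ∑ a5 : Fin 6,
        ∑ a6 : Fin 6, K a0 a1 a2 a3 a4 a5 a6 := by
  rw [sum_cons]; refine Finset.sum_congr rfl fun a0 _ => ?_
  rw [sum_cons]; refine Finset.sum_congr rfl fun a1 _ => ?_
  rw [sum_cons]; refine Finset.sum_congr rfl fun a2 _ => ?_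
  rw [sum_cons]; refine Finset.sum_congr rfl fun a3 _ => ?_
  rw [sum_cons]; refine Finset.sum_congr rfl fun a4 _ => ?_
  rw [sum_cons]; refine Finset.sum_congr rfl fun a5 _ => ?_
  rw [sum_cons]; refine Finset.sum_congr rfl fun a6 _ => ?_
  rw [Fintype.sum_unique]
  rfl

lemma total_eq (t : ℕ) :
    total t = ∑ y : Fin 7 → Fin 6, ∏ p : Fin 7, look t (y p) (y (p - 1)) (y (p - 3)) := by
  have h1 : ∑ y : Fin 7 → Fin 6, ∏ p : Fin 7, look t (y p) (y (p - 1)) (y (p - 3)) =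
      ∑ y : Fin 7 → Fin 6, (fun y0 y1 y2 y3 y4 y5 y6 : ℕ => look t y0 y6 y4 * look t y1 y0 y5 *
        look t y2 y1 y6 * look t y3 y2 y0 * look t y4 y3 y1 * look t y5 y4 y2 * look t y6 y5 y3)
        (y 0) (y 1) (y 2) (y 3) (y 4) (y 5) (y 6) := by
    refine Finset.sum_congr rfl fun y _ => ?_
    rw [Fin.prod_univ_seven]
    rfl
  rw [h1]
  refine Eq.trans ?_ (sum_pi7 (fun y0 y1 y2 y3 y4 y5 y6 : ℕ => look t y0 y6 y4 *
    look t y1 y0 y5 * look t y2 y1 y6 * look t y3 y2 y0 * look t y4 y3 y1 * look t y5 y4 y2 *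
    look t y6 y5 y3)).symm
  unfold total
  simp only [mulz_eq, sum6_eq, Finset.mul_sum]
  refine Finset.sum_congr rfl fun a0 _ => Finset.sum_congr rfl fun a1 _ =>
    Finset.sum_congr rfl fun a2 _ => Finset.sum_congr rfl fun a3 _ =>
    Finset.sum_congr rfl fun a4 _ => Finset.sum_congr rfl fun a5 _ =>
    Finset.sum_congr rfl fun a6 _ => ?_
  ring

lemma Stot_eq (M : Fin 7 → Fin 6 → ℕ) (t : ℕ)
    (h : ∀ i j k : Fin 6, look t i j k = ten M i j k ^ 2) : Stot M = total t := by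
  rw [total_eq, Stot]
  refine Finset.sum_congr rfl fun y _ => Finset.prod_congr rfl fun p _ => ?_
  rw [h]

lemma S12 : Stot M1 = Stot M2 := by rw [Stot_eq M1 tab1 tab1_eq, Stot_eq M2 tab1 tab2_eq]

lemma S10 : Stot M1 < Stot M0 := by
  rw [Stot_eq M1 tab1 tab1_eq, Stot_eq M0 tab0 tab0_eq, total0, total1]
  norm_num

/-- the real function with the values `M` -/
def fR (M : Fin 7 → Fin 6 → ℕ) : Fin (6 + 1) × Fin (5 + 1) → ℝ := fun z => (M z.1 z.2 : ℝ)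

noncomputable def cc : ℝ :=
  ((((6 + 1 : ℕ) : ENNReal)⁻¹ ^ 14 * ((5 + 1 : ℕ) : ENNReal)⁻¹ ^ 7).toReal)

lemma cc_pos : 0 < cc := by
  unfold cc
  rw [ENNReal.toReal_mul, ENNReal.toReal_pow, ENNReal.toReal_pow, ENNReal.toReal_inv,
    ENNReal.toReal_inv, ENNReal.toReal_natCast, ENNReal.toReal_natCast]
  positivity

lemma dens_fR (M : Fin 7 → Fin 6 → ℕ) :
    dens E (unif 6) (unif 5) (fR M) = cc * (Stot M : ℝ) := by
  rw [dens_unif]
  unfold cc Stot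
  congr 1
  simp_rw [sum_prod_E]
  simp only [ten, fR]
  push_cast
  rfl

lemma abs_fR (M : Fin 7 → Fin 6 → ℕ) : (fun z => |fR M z|) = fR M := by
  funext z
  exact abs_of_nonneg (Nat.cast_nonneg _)

lemma gnorm_fR (M : Fin 7 → Fin 6 → ℕ) :
    gnorm E (unif 6) (unif 5) (fR M) = (cc * (Stot M : ℝ)) ^ (1 / (E.card : ℝ)) := by
  unfold gnorm
  rw [abs_fR, dens_fR]

lemma card_E : E.card = 42 := by decide

lemma bdd (f : Fin (6 + 1) × Fin (5 + 1) → ℝ) : BddMeas f := by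
  refine ⟨measurable_of_finite f, ∑ z, |f z|, fun z => ?_⟩
  exact Finset.single_le_sum (f := fun z => |f z|) (fun z _ => abs_nonneg _) (Finset.mem_univ z)

lemma M_add : fR M1 + fR M2 = (2 : ℝ) • fR M0 := by
  have h : ∀ A i, M1 A i + M2 A i = 2 * M0 A i := by decide
  funext z
  have := h z.1 z.2
  simp only [Pi.add_apply, Pi.smul_apply, smul_eq_mul, fR]
  exact_mod_cast this

theorem not_isNormOn_unif : ¬ IsNormOn E (unif 6) (unif 5) := by
  rintro ⟨h1, h2, -⟩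
  have h3 := h1 (fR M1) (fR M2) (bdd _) (bdd _)
  rw [M_add, h2 2 (fR M0) (bdd _), gnorm_fR, gnorm_fR, gnorm_fR, ← S12, abs_of_pos two_pos] at h3
  have h4 : (cc * (Stot M1 : ℝ)) ^ (1 / (E.card : ℝ)) < (cc * (Stot M0 : ℝ)) ^ (1 / (E.card : ℝ)) := by
    have hc := cc_pos
    refine Real.rpow_lt_rpow (by positivity) ?_ (by rw [card_E]; norm_num)
    have : (Stot M1 : ℝ) < Stot M0 := by exact_mod_cast S10
    exact mul_lt_mul_of_pos_left this hc
  linarith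

end Pool.Agent.H619.CutInv
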