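import Pool.Agent.H619.CutInv.Main

set_option autoImplicit false

open MeasureTheory

namespace Pool.Agent.H619.CutInv

/-- `φ` is an exchanging cut-involution: an automorphism with `φ = φ⁻¹` such that the set of the
vertices not fixed by `φ` is the disjoint union of two nonempty sets which are exchanged by `φ` and
have no edge between them. -/
def IsExchange {V W : Type} (E : Finset (V × W)) (φ : Equiv.Perm V × Equiv.Perm W) : Prop :=
  IsAut E φ ∧ φ = φ⁻¹ ∧ ∃ L R : Set (V ⊕ W), L.Nonempty ∧ Disjoint L R ∧ L ∪ R = moved φ ∧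
    (∀ x ∈ L, Sum.map φ.1 φ.2 x ∈ R) ∧ (∀ x ∈ R, Sum.map φ.1 φ.2 x ∈ L) ∧
    ∀ x ∈ L, ∀ y ∈ R, ¬ (graph E).Adj x y

/-- The group generated by the exchanging cut-involutions. -/
def exchangeGroup {V W : Type} (E : Finset (V × W)) : Subgroup (Equiv.Perm V × Equiv.Perm W) :=
  Subgroup.closure {φ | IsExchange E φ}

/-- two disjoint copies -/
def dbl {V W : Type} (E : Finset (V × W)) : Finset ((V × Bool) × (W × Bool)) :=
  ((Finset.univ : Finset Bool) ×ˢ E).map
    ⟨fun z => ((z.2.1, z.1), (z.2.2, z.1)), by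
      rintro ⟨b, v, w⟩ ⟨b', v', w'⟩ h
      change ((v, b), (w, b)) = ((v', b'), (w', b')) at h
      simp only [Prod.mk.injEq] at h
      obtain ⟨⟨h1, h2⟩, h3, -⟩ := h
      simp [h1, h2, h3]⟩

lemma mem_dbl {V W : Type} (E : Finset (V × W)) (v : V) (b : Bool) (w : W) (b' : Bool) :
    (((v, b), (w, b')) : (V × Bool) × (W × Bool)) ∈ dbl E ↔ b = b' ∧ (v, w) ∈ E := by
  unfold dbl
  rw [Finset.mem_map]
  constructor
  · rintro ⟨⟨c, e⟩, he, h⟩
    change ((e.1, c), (e.2, c)) = ((v, b), (w, b')) at h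
    simp only [Prod.mk.injEq] at h
    obtain ⟨⟨h1, h2⟩, h3, h4⟩ := h
    simp only [Finset.mem_product, Finset.mem_univ, true_and] at he
    subst h1 h2 h3 h4
    exact ⟨rfl, he⟩
  · rintro ⟨rfl, he⟩
    exact ⟨(b, (v, w)), by simpa using he, rfl⟩

/-- the exchange of the copies, twisted by a permutation -/
def swp {V : Type} (α : Equiv.Perm V) : Equiv.Perm (V × Bool) where
  toFun z := if z.2 then (α.symm z.1, false) else (α z.1, true)
  invFun z := if z.2 then (α.symm z.1, false) else (α z.1, true)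
  left_inv := by rintro ⟨v, b⟩; cases b <;> simp
  right_inv := by rintro ⟨v, b⟩; cases b <;> simp

lemma swp_false {V : Type} (α : Equiv.Perm V) (v : V) : swp α (v, false) = (α v, true) := rfl
lemma swp_true {V : Type} (α : Equiv.Perm V) (v : V) : swp α (v, true) = (α.symm v, false) := rfl

lemma aut_symm {V W : Type} {E : Finset (V × W)} {α : Equiv.Perm V × Equiv.Perm W}
    (h : IsAut E α) (v : V) (w : W) : (α.1.symm v, α.2.symm w) ∈ E ↔ (v, w) ∈ E := by
  rw [← h (α.1.symm v) (α.2.symm w)]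
  simp

lemma swp_exchange {V W : Type} [Nonempty V] {E : Finset (V × W)}
    {α : Equiv.Perm V × Equiv.Perm W} (h : IsAut E α) :
    IsExchange (dbl E) (swp α.1, swp α.2) := by
  refine ⟨?_, ?_, ?_⟩
  · rintro ⟨v, b⟩ ⟨w, b'⟩
    cases b <;> cases b' <;> simp [swp_false, swp_true, mem_dbl, h v w, aut_symm h]
  · refine (inv_eq_of_mul_eq_one_left ?_).symm
    refine Prod.ext (Equiv.ext fun z => ?_) (Equiv.ext fun z => ?_)
    · exact (swp α.1).left_inv z
    · exact (swp α.2).left_inv z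
  · refine ⟨{x | x.elim (fun z => z.2 = false) (fun z => z.2 = false)},
      {x | x.elim (fun z => z.2 = true) (fun z => z.2 = true)}, ?_, ?_, ?_, ?_, ?_, ?_⟩
    · obtain ⟨v⟩ := ‹Nonempty V›
      exact ⟨Sum.inl (v, false), rfl⟩
    · rw [Set.disjoint_left]
      rintro (⟨v, b⟩ | ⟨v, b⟩) h1 h2 <;>
      · have h1' : b = false := h1
        have h2' : b = true := h2
        rw [h1'] at h2'
        exact absurd h2' (by decide)
    · ext x
      rcases x with ⟨v, b⟩ | ⟨v, b⟩ <;> cases b <;> simp [moved, swp_false, swp_true]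
    · rintro (⟨v, b⟩ | ⟨v, b⟩) h1 <;>
      · have h1' : b = false := h1
        subst h1'
        rfl
    · rintro (⟨v, b⟩ | ⟨v, b⟩) h1 <;>
      · have h1' : b = true := h1
        subst h1'
        rfl
    · intro x hx y hy hadj
      rw [graph, SimpleGraph.fromRel_adj] at hadj
      obtain ⟨-, ⟨⟨⟨v, b⟩, w, b'⟩, he, rfl, rfl⟩ | ⟨⟨⟨v, b⟩, w, b'⟩, he, rfl, rfl⟩⟩ := hadj
      · rw [mem_dbl] at he
        have h1 : b = false := hx
        have h2 : b' = true := hy
        rw [h1, h2] at he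
        exact absurd he.1 (by decide)
      · rw [mem_dbl] at he
        have h1 : b' = false := hx
        have h2 : b = true := hy
        rw [h1, h2] at he
        exact absurd he.1 (by decide)

lemma aut_of_mem {V W : Type} {E : Finset (V × W)} {φ : Equiv.Perm V × Equiv.Perm W}
    (h : φ ∈ cutGroup E) : IsAut E φ := by
  unfold cutGroup at h
  induction h using Subgroup.closure_induction with
  | mem x hx => exact hx.1
  | one => intro v w; rfl
  | mul x y _ _ hx hy =>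
    intro v w
    exact (hx (y.1 v) (y.2 w)).trans (hy v w)
  | inv x _ hx =>
    intro v w
    exact aut_symm hx v w

theorem dbl_transitive {V W : Type} [Nonempty V] {E : Finset (V × W)}
    (h : EdgeTransitiveUnder E (cutGroup E)) :
    EdgeTransitiveUnder (dbl E) (exchangeGroup (dbl E)) := by
  have gen : ∀ α : Equiv.Perm V × Equiv.Perm W, IsAut E α →
      (swp α.1, swp α.2) ∈ exchangeGroup (dbl E) := fun α hα =>
    Subgroup.subset_closure (swp_exchange hα)
  have h1 : IsAut E (1 : Equiv.Perm V × Equiv.Perm W) := fun v w => Iff.rfl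
  rintro ⟨⟨v, b⟩, w, c⟩ he ⟨⟨v', b'⟩, w', c'⟩ he'
  rw [mem_dbl] at he he'
  obtain ⟨rfl, he⟩ := he
  obtain ⟨rfl, he'⟩ := he'
  obtain ⟨φ, hφ, h2, h3⟩ := h (v, w) he (v', w') he'
  obtain ⟨ψ, hψ, h4, h5⟩ := h (v', w') he' (v, w) he
  simp only at h2 h3 h4 h5
  cases b <;> cases b'
  · refine ⟨(swp ψ.1, swp ψ.2) * (swp 1, swp 1), mul_mem (gen ψ (aut_of_mem hψ)) (gen 1 h1), ?_, ?_⟩
    · change swp ψ.1 (v, true) = _
      rw [swp_true, ← h4, Equiv.symm_apply_apply]
    · change swp ψ.2 (w, true) = _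
      rw [swp_true, ← h5, Equiv.symm_apply_apply]
  · refine ⟨(swp φ.1, swp φ.2), gen φ (aut_of_mem hφ), ?_, ?_⟩
    · change swp φ.1 (v, false) = _
      rw [swp_false, h2]
    · change swp φ.2 (w, false) = _
      rw [swp_false, h3]
  · refine ⟨(swp ψ.1, swp ψ.2), gen ψ (aut_of_mem hψ), ?_, ?_⟩
    · change swp ψ.1 (v, true) = _
      rw [swp_true, ← h4, Equiv.symm_apply_apply]
    · change swp ψ.2 (w, true) = _
      rw [swp_true, ← h5, Equiv.symm_apply_apply]
  · refine ⟨(swp φ.1, swp φ.2) * (swp 1, swp 1), mul_mem (gen φ (aut_of_mem hφ)) (gen 1 h1), ?_, ?_⟩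
    · change swp φ.1 (v, false) = _
      rw [swp_false, h2]
    · change swp φ.2 (w, false) = _
      rw [swp_false, h3]

/-- the densities for uniform measures, general bigraph -/
lemma dens_unif_gen {V W : Type} [Fintype V] [Fintype W] [DecidableEq V] [DecidableEq W]
    (G : Finset (V × W)) (a b : ℕ) (f : Fin (a + 1) × Fin (b + 1) → ℝ) :
    dens G (unif a) (unif b) f =
      ((((a + 1 : ℕ) : ENNReal)⁻¹ ^ Fintype.card V *
        ((b + 1 : ℕ) : ENNReal)⁻¹ ^ Fintype.card W).toReal) *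
        ∑ z : (V → Fin (a + 1)) × (W → Fin (b + 1)), ∏ e ∈ G, f (z.1 e.1, z.2 e.2) := by
  unfold dens
  rw [integral_fintype (hf := Integrable.of_finite), Finset.mul_sum]
  refine Finset.sum_congr rfl fun z _ => ?_
  rw [smul_eq_mul]
  congr 1
  rw [measureReal_def]
  congr 1
  have : ({z} : Set ((V → Fin (a + 1)) × (W → Fin (b + 1)))) = {z.1} ×ˢ {z.2} := by
    ext u; simp [Prod.ext_iff]
  rw [this, Measure.prod_prod, Measure.pi_singleton, Measure.pi_singleton]
  simp only [unif_single, Finset.prod_const, Finset.card_univ]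

/-- pairs of maps on the two copies -/
def splitE (V W A B : Type) :
    ((V × Bool → A) × (W × Bool → B)) ≃ (Bool → (V → A) × (W → B)) where
  toFun z b := (fun v => z.1 (v, b), fun w => z.2 (w, b))
  invFun g := (fun e => (g e.2).1 e.1, fun e => (g e.2).2 e.1)
  left_inv _ := rfl
  right_inv _ := rfl

lemma sum_dbl {V W A B : Type} [Fintype V] [Fintype W] [DecidableEq V] [DecidableEq W]
    [Fintype A] [Fintype B] (G : Finset (V × W)) (f : A × B → ℝ) :
    ∑ z : (V × Bool → A) × (W × Bool → B), ∏ e ∈ dbl G, f (z.1 e.1, z.2 e.2) =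
      (∑ z : (V → A) × (W → B), ∏ e ∈ G, f (z.1 e.1, z.2 e.2)) ^ 2 := by
  have h1 : ∀ z : (V × Bool → A) × (W × Bool → B), ∏ e ∈ dbl G, f (z.1 e.1, z.2 e.2) =
      ∏ b : Bool, ∏ e ∈ G, f ((splitE V W A B z b).1 e.1, (splitE V W A B z b).2 e.2) := by
    intro z
    unfold dbl
    rw [Finset.prod_map, Finset.prod_product]
    rfl
  simp_rw [h1]
  rw [(splitE V W A B).sum_comp (fun g : Bool → (V → A) × (W → B) =>
    ∏ b : Bool, ∏ e ∈ G, f ((g b).1 e.1, (g b).2 e.2))]
  have h2 := Finset.prod_univ_sum (t := fun _ : Bool => (Finset.univ : Finset ((V → A) × (W → B))))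
    (f := fun _ z => ∏ e ∈ G, f (z.1 e.1, z.2 e.2))
  rw [Fintype.piFinset_univ] at h2
  rw [← h2]
  simp [sq]

lemma sum_fR (M : Fin 7 → Fin 6 → ℕ) :
    ∑ z : (Fin 7 × Fin 2 → Fin (6 + 1)) × (Fin 7 → Fin (5 + 1)), ∏ e ∈ E, fR M (z.1 e.1, z.2 e.2) =
      (Stot M : ℝ) := by
  have h1 := dens_unif 6 5 (fR M)
  have h2 := dens_fR M
  rw [h1] at h2
  have h3 := mul_left_cancel₀ cc_pos.ne' h2
  rw [← h3, Fintype.sum_prod_type_right]

lemma gnorm_dbl (M : Fin 7 → Fin 6 → ℕ) :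
    gnorm (dbl E) (unif 6) (unif 5) (fR M) =
      (((((6 + 1 : ℕ) : ENNReal)⁻¹ ^ Fintype.card ((Fin 7 × Fin 2) × Bool) *
        ((5 + 1 : ℕ) : ENNReal)⁻¹ ^ Fintype.card (Fin 7 × Bool)).toReal) *
        (Stot M : ℝ) ^ 2) ^ (1 / ((dbl E).card : ℝ)) := by
  unfold gnorm
  rw [abs_fR, dens_unif_gen, sum_dbl, sum_fR]

lemma aux_lt (K s1 s0 n : ℝ) (hK : 0 < K) (h0 : 0 ≤ s1) (h : s1 < s0) (hn : 0 < n) :
    (K * s1 ^ 2) ^ (1 / n) < (K * s0 ^ 2) ^ (1 / n) := by
  refine Real.rpow_lt_rpow (by positivity) ?_ (by positivity)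
  exact mul_lt_mul_of_pos_left (pow_lt_pow_left₀ h h0 (by norm_num)) hK

lemma K_pos (m n : ℕ) : 0 < ((((6 + 1 : ℕ) : ENNReal)⁻¹ ^ m * ((5 + 1 : ℕ) : ENNReal)⁻¹ ^ n).toReal) := by
  rw [ENNReal.toReal_mul, ENNReal.toReal_pow, ENNReal.toReal_pow, ENNReal.toReal_inv,
    ENNReal.toReal_inv, ENNReal.toReal_natCast, ENNReal.toReal_natCast]
  positivity

lemma aux_contra (K s1 s0 n : ℝ) (hK : 0 < K) (h0 : 0 ≤ s1) (h : s1 < s0) (hn : 0 < n)
    (h3 : 2 * (K * s0 ^ 2) ^ (1 / n) ≤ (K * s1 ^ 2) ^ (1 / n) + (K * s1 ^ 2) ^ (1 / n)) : False := by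
  have := aux_lt K s1 s0 n hK h0 h hn
  linarith

theorem not_weaklyNorming_dbl : ¬ WeaklyNorming (dbl E) := by
  intro hw
  obtain ⟨h1, h2, -⟩ := hw (Fin (6 + 1)) (Fin (5 + 1)) (unif 6) (unif 5)
  have h3 := h1 (fR M1) (fR M2) (bdd _) (bdd _)
  rw [M_add, h2 2 (fR M0) (bdd _), gnorm_dbl, gnorm_dbl, gnorm_dbl, ← S12, abs_of_pos two_pos] at h3
  have hcard : (0 : ℝ) < (dbl E).card := by
    have : (dbl E).card = 84 := by
      unfold dbl
      rw [Finset.card_map, Finset.card_product, card_E]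
      rfl
    rw [this]
    norm_num
  exact aux_contra _ _ _ _ (K_pos _ _) (Nat.cast_nonneg _) (Nat.cast_lt.2 S10) hcard h3

lemma cut_of_exchange {V W : Type} {E : Finset (V × W)} {φ : Equiv.Perm V × Equiv.Perm W}
    (h : IsExchange E φ) : IsCutInvolution E φ := by
  obtain ⟨h1, h2, L, R, ⟨x, hx⟩, hd, hu, hLR, hRL, hno⟩ := h
  refine ⟨h1, h2, fun hc => ?_⟩
  have key : ∀ (a b : moved φ), ((graph E).induce (moved φ)).Walk a b → a.1 ∈ L → b.1 ∈ L := by
    intro a b w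
    induction w with
    | nil => exact id
    | @cons u v _ hadj _ ih =>
      intro ha
      apply ih
      have hv : v.1 ∈ L ∪ R := by rw [hu]; exact v.2
      rcases hv with hv | hv
      · exact hv
      · exact absurd hadj (hno _ ha _ hv)
  have hx1 : x ∈ moved φ := by rw [← hu]; exact Or.inl hx
  have hx2 : Sum.map φ.1 φ.2 x ∈ moved φ := by rw [← hu]; exact Or.inr (hLR x hx)
  obtain ⟨w⟩ := hc ⟨x, hx1⟩ ⟨_, hx2⟩
  exact Set.disjoint_left.1 hd (key _ _ w hx) (hLR x hx)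

theorem dbl_transitive_cut {V W : Type} [Nonempty V] {E : Finset (V × W)}
    (h : EdgeTransitiveUnder E (cutGroup E)) : EdgeTransitiveUnder (dbl E) (cutGroup (dbl E)) := by
  intro e he e' he'
  obtain ⟨φ, h1, h2⟩ := dbl_transitive h e he e' he'
  exact ⟨φ, Subgroup.closure_mono (fun φ hφ => cut_of_exchange hφ) h1, h2⟩

end Pool.Agent.H619.CutInv
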