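import Pool.Agent.H619.CutInv.Main

set_option autoImplicit false

open MeasureTheory

namespace Pool.Agent.H619.CutInv

/-- the step map from the unit interval to `Fin (n + 1)` -/
noncomputable def stp (n : ℕ) (x : unitInterval) : Fin (n + 1) :=
  ⟨min ⌊((n : ℝ) + 1) * (x : ℝ)⌋₊ n, by omega⟩

lemma stp_meas (n : ℕ) : Measurable (stp n) := by
  have h1 : Measurable fun x : unitInterval => ⌊((n : ℝ) + 1) * (x : ℝ)⌋₊ :=
    Nat.measurable_floor.comp (measurable_const.mul measurable_subtype_coe)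
  have h2 : Measurable fun k : ℕ => (⟨min k n, by omega⟩ : Fin (n + 1)) := measurable_from_top
  exact h2.comp h1

lemma stp_pre (n : ℕ) (i : Fin (n + 1)) :
    volume (stp n ⁻¹' {i}) = ((n + 1 : ℕ) : ENNReal)⁻¹ := by
  have hN : (0 : ℝ) < (n : ℝ) + 1 := by positivity
  have hi : (i : ℕ) ≤ n := Nat.lt_succ_iff.1 i.2
  have hiR : (i : ℝ) ≤ n := by exact_mod_cast hi
  rw [unitInterval.volume_apply]
  have hlen : ENNReal.ofReal (((i : ℝ) + 1) / (n + 1) - i / (n + 1)) = ((n + 1 : ℕ) : ENNReal)⁻¹ := by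
    rw [← sub_div, add_sub_cancel_left, one_div, ENNReal.ofReal_inv_of_pos hN]
    congr 1
    rw [show ((n : ℝ) + 1) = ((n + 1 : ℕ) : ℝ) by push_cast; ring, ENNReal.ofReal_natCast]
  apply le_antisymm
  · rw [← hlen, ← Real.volume_Icc]
    apply measure_mono
    rintro _ ⟨x, hx, rfl⟩
    have hx' : min ⌊((n : ℝ) + 1) * (x : ℝ)⌋₊ n = (i : ℕ) := congrArg Fin.val hx
    have h0 : (0 : ℝ) ≤ ((n : ℝ) + 1) * (x : ℝ) := mul_nonneg hN.le x.2.1
    have h1 : (i : ℝ) ≤ ((n : ℝ) + 1) * (x : ℝ) := by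
      refine le_trans ?_ (Nat.floor_le h0)
      have : (i : ℕ) ≤ ⌊((n : ℝ) + 1) * (x : ℝ)⌋₊ := by omega
      exact_mod_cast this
    have h2 : ((n : ℝ) + 1) * (x : ℝ) ≤ i + 1 := by
      rcases lt_or_ge (i : ℕ) n with h | h
      · have h3 : ⌊((n : ℝ) + 1) * (x : ℝ)⌋₊ = (i : ℕ) := by omega
        have := Nat.lt_floor_add_one (((n : ℝ) + 1) * (x : ℝ))
        rw [h3] at this
        exact this.le
      · have h3 : (i : ℝ) = n := by
          have : (i : ℕ) = n := le_antisymm hi h
          exact_mod_cast this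
        rw [h3]
        have := x.2.2
        nlinarith
    constructor
    · rw [div_le_iff₀ hN]; linarith
    · rw [le_div_iff₀ hN]; linarith
  · rw [← hlen, ← Real.volume_Ico]
    apply measure_mono
    rintro x ⟨h1, h2⟩
    rw [div_le_iff₀ hN] at h1
    rw [lt_div_iff₀ hN] at h2
    have hi0 : (0 : ℝ) ≤ i := Nat.cast_nonneg _
    have hx0 : 0 ≤ x := by
      by_contra hc
      push Not at hc
      nlinarith
    have hx1 : x ≤ 1 := by
      by_contra hc
      push Not at hc
      nlinarith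
    refine ⟨⟨x, hx0, hx1⟩, ?_, rfl⟩
    change stp n ⟨x, hx0, hx1⟩ = i
    apply Fin.ext
    change min ⌊((n : ℝ) + 1) * x⌋₊ n = (i : ℕ)
    have h3 : ⌊((n : ℝ) + 1) * x⌋₊ = (i : ℕ) := by
      rw [Nat.floor_eq_iff (by positivity)]
      constructor <;> linarith
    rw [h3]
    omega

lemma stp_mp (n : ℕ) : MeasurePreserving (stp n) volume (unif n) := by
  refine ⟨stp_meas n, ?_⟩
  apply Measure.ext_of_singleton
  intro i
  rw [Measure.map_apply (stp_meas n) (measurableSet_singleton i), stp_pre, unif_single]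

/-- transfer of the densities -/
lemma dens_comp {X Y : Type} [MeasurableSpace X] [MeasurableSpace Y] {μ : Measure X}
    {ν : Measure Y} [IsProbabilityMeasure μ] [IsProbabilityMeasure ν] {a b : ℕ}
    {p : X → Fin (a + 1)} {q : Y → Fin (b + 1)} (hp : MeasurePreserving p μ (unif a))
    (hq : MeasurePreserving q ν (unif b)) (f : Fin (a + 1) × Fin (b + 1) → ℝ) :
    dens E μ ν (fun z => f (p z.1, q z.2)) = dens E (unif a) (unif b) f := by
  have h1 : MeasurePreserving (fun (x : Fin 7 × Fin 2 → X) i => p (x i))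
      (Measure.pi fun _ => μ) (Measure.pi fun _ => unif a) :=
    measurePreserving_pi (fun _ => μ) (fun _ => unif a) (fun _ => hp)
  have h2 : MeasurePreserving (fun (y : Fin 7 → Y) i => q (y i))
      (Measure.pi fun _ => ν) (Measure.pi fun _ => unif b) :=
    measurePreserving_pi (fun _ => ν) (fun _ => unif b) (fun _ => hq)
  have h3 := h1.prod h2
  unfold dens
  rw [← h3.map_eq, integral_map h3.measurable.aemeasurable
    (measurable_of_finite _).aestronglyMeasurable]
  rfl

/-- The Fano incidence graph with doubled points does not give a norm on `[0, 1]²`. -/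
theorem not_isNormOn_unit :
    ¬ IsNormOn E (volume : Measure unitInterval) (volume : Measure unitInterval) := by
  rintro ⟨h1, h2, -⟩
  have hm : ∀ f : Fin (6 + 1) × Fin (5 + 1) → ℝ,
      BddMeas (fun z : unitInterval × unitInterval => f (stp 6 z.1, stp 5 z.2)) := by
    intro f
    obtain ⟨h, C, hC⟩ := bdd f
    refine ⟨h.comp (((stp_meas 6).comp measurable_fst).prodMk ((stp_meas 5).comp measurable_snd)),
      C, fun z => hC _⟩
  have hg : ∀ f : Fin (6 + 1) × Fin (5 + 1) → ℝ,
      gnorm E (volume : Measure unitInterval) (volume : Measure unitInterval)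
        (fun z => f (stp 6 z.1, stp 5 z.2)) = gnorm E (unif 6) (unif 5) f := by
    intro f
    unfold gnorm
    rw [← dens_comp (stp_mp 6) (stp_mp 5) (fun z => |f z|)]
  have h3 := h1 _ _ (hm (fR M1)) (hm (fR M2))
  have h4 := h2 2 _ (hm (fR M0))
  have e1 : ((fun z : unitInterval × unitInterval => fR M1 (stp 6 z.1, stp 5 z.2)) +
      fun z => fR M2 (stp 6 z.1, stp 5 z.2)) =
      (2 : ℝ) • fun z : unitInterval × unitInterval => fR M0 (stp 6 z.1, stp 5 z.2) := by
    funext z
    exact congrFun M_add (stp 6 z.1, stp 5 z.2)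
  rw [e1, h4, hg, hg, hg, gnorm_fR, gnorm_fR, gnorm_fR, ← S12, abs_of_pos two_pos] at h3
  have h5 : (cc * (Stot M1 : ℝ)) ^ (1 / (E.card : ℝ)) < (cc * (Stot M0 : ℝ)) ^ (1 / (E.card : ℝ)) := by
    have hc := cc_pos
    refine Real.rpow_lt_rpow (by positivity) ?_ (by rw [card_E]; norm_num)
    have : (Stot M1 : ℝ) < Stot M0 := by exact_mod_cast S10
    exact mul_lt_mul_of_pos_left this hc
  linarith

end Pool.Agent.H619.CutInv
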